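import Pool.Agent.Lib.H98M.MF

/-!
# H91LB, file Defs: not 2-connected plane sets, sets without a cycle with vertices on both sides
-/

set_option autoImplicit false
set_option linter.unusedSectionVars false

namespace H91LB

open Finset H98P H98Z H98M

variable {V : Type*} [Fintype V] [DecidableEq V]

/-- `F` is not 2-connected on `W` -/
def N2 (W : Finset V) (F : Finset (Sym2 V)) : Prop :=
  Disc W F ∨ ∃ b ∈ W, Disc (W.erase b) (F.filter fun e => b ∉ e)

/-- The statement for the vertex set `W` -/
def HN (cross : Sym2 V → Sym2 V → Prop) (W : Finset V) : Prop :=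
  ∀ F : Finset (Sym2 V), F ⊆ LW W → Plane cross F → N2 W F → Acy cross (Un cross W F)

/-- No cycle of `F` has vertices on both sides. -/
def Clean (cross : Sym2 V → Sym2 V → Prop) (W : Finset V) (F : Finset (Sym2 V)) : Prop :=
  ∀ L : List V, L.Nodup → (∀ e ∈ ce L, e ∈ F) → ∀ x ∈ W, ∀ y ∈ W, x ∉ L → y ∉ L →
    cy (cr cross s(x, y)) L = 0

end H91LB
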