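import Pool.Agent.Lib.H91LB.Defs

/-!
# H91LB, file T1: parity of a plane theta graph and one more vertex

Three paths from `u` to `w` with inner vertices, `d` a further vertex: for exactly one or for all three
of the cycles the inner vertices of the third path and `d` are on different sides.
-/

set_option autoImplicit false
set_option linter.unusedSectionVars false

namespace H91LB

open Finset H98P H98Z H98M

variable {V : Type*} [Fintype V] [DecidableEq V]

/-- The number of crossings of a drawing of `K33` is odd. -/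
theorem k33 {cross : Sym2 V → Sym2 V → Prop} (hG : Geo cross) {a b c x y z : V}
    (hn : [a, b, c, x, y, z].Nodup) :
    (cr cross s(a, x) s(b, y) + cr cross s(a, y) s(b, x) +
      (cr cross s(a, x) s(c, y) + cr cross s(a, y) s(c, x)) +
      (cr cross s(b, x) s(c, y) + cr cross s(b, y) s(c, x))) +
    (cr cross s(a, x) s(b, z) + cr cross s(a, z) s(b, x) +
      (cr cross s(a, x) s(c, z) + cr cross s(a, z) s(c, x)) +
      (cr cross s(b, x) s(c, z) + cr cross s(b, z) s(c, x))) +
    (cr cross s(a, y) s(b, z) + cr cross s(a, z) s(b, y) +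
      (cr cross s(a, y) s(c, z) + cr cross s(a, z) s(c, y)) +
      (cr cross s(b, y) s(c, z) + cr cross s(b, z) s(c, y))) = 1 := by
  have n1 : [a, b, c, x, y].Nodup := by
    simp only [List.nodup_cons, List.mem_cons, List.not_mem_nil, or_false, not_or, List.nodup_nil,
      and_true, not_false_eq_true] at hn ⊢
    tauto
  have n2 : [a, b, c, x, z].Nodup := by
    simp only [List.nodup_cons, List.mem_cons, List.not_mem_nil, or_false, not_or, List.nodup_nil,
      and_true, not_false_eq_true] at hn ⊢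
    tauto
  have n3 : [a, b, c, y, z].Nodup := by
    simp only [List.nodup_cons, List.mem_cons, List.not_mem_nil, or_false, not_or, List.nodup_nil,
      and_true, not_false_eq_true] at hn ⊢
    tauto
  have h1 := hG.five a b c x y n1
  have h2 := hG.five a b c x z n2
  have h3 := hG.five a b c y z n3
  have h4 := hG.tri a b c x y z hn
  rw [cr_comm hG s(b, c) s(a, y), cr_comm hG s(b, x) s(a, y), cr_comm hG s(c, x) s(a, y),
    cr_comm hG s(c, x) s(b, y)] at h1
  rw [cr_comm hG s(b, c) s(a, z), cr_comm hG s(b, x) s(a, z), cr_comm hG s(c, x) s(a, z),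
    cr_comm hG s(c, x) s(b, z)] at h2
  rw [cr_comm hG s(b, c) s(a, z), cr_comm hG s(b, y) s(a, z), cr_comm hG s(c, y) s(a, z),
    cr_comm hG s(c, y) s(b, z)] at h3
  -- the terms which occur twice
  have t1 := two_zmod (cr cross s(a, b) s(c, x) + cr cross s(a, c) s(b, x) + cr cross s(a, x) s(b, c))
  have t2 := two_zmod (cr cross s(a, b) s(c, y) + cr cross s(a, c) s(b, y) + cr cross s(a, y) s(b, c))
  have t3 := two_zmod (cr cross s(a, b) s(c, z) + cr cross s(a, c) s(b, z) + cr cross s(a, z) s(b, c))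
  have t4 := two_zmod (cr cross s(a, b) s(x, y) + cr cross s(a, b) s(y, z) + cr cross s(a, b) s(x, z) +
    (cr cross s(b, c) s(x, y) + cr cross s(b, c) s(y, z) + cr cross s(b, c) s(x, z)) +
    (cr cross s(a, c) s(x, y) + cr cross s(a, c) s(y, z) + cr cross s(a, c) s(x, z)))
  have t5 := two_zmod (1 : ZMod 2)
  linear_combination h1 + h2 + h3 + h4 - t1 - t2 - t3 - t4 + t5

/-- A path from `x` to `w` against the edge `xw` -/
theorem sub_path {cross : Sym2 V → Sym2 V → Prop} (hG : Geo cross) {F : Finset (Sym2 V)}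
    (hp : Plane cross F) {u w x y z d : V} {M : List V} (hM : ∀ e ∈ we (x :: (M ++ [w])), e ∈ F)
    (hy : s(u, y) ∈ F) (hz : s(u, z) ∈ F)
    (hd : ∀ a ∈ x :: (M ++ [w]), a ≠ u ∧ a ≠ y ∧ a ≠ z ∧ a ≠ d) :
    wk (cr cross s(y, d)) (x :: (M ++ [w])) + wk (cr cross s(z, d)) (x :: (M ++ [w])) =
      cr cross s(w, x) s(u, y) + cr cross s(w, x) s(u, z) + cr cross s(w, x) s(y, d) +
        cr cross s(w, x) s(z, d) := by
  have E1 : cy (fun e => cy (cr cross e) (u :: [y, d, z])) (x :: (M ++ [w])) = 0 := by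
    refine cy_cy hG x u (M ++ [w]) [y, d, z] ?_
    intro a ha ha'
    obtain ⟨h1, h2, h3, h4⟩ := hd a ha
    simp only [List.mem_cons, List.not_mem_nil, or_false] at ha'
    tauto
  have hfun : (fun e => cy (cr cross e) (u :: [y, d, z])) =
      fun e => cr cross s(u, y) e + (cr cross s(y, d) e + (cr cross s(z, d) e + cr cross s(u, z) e)) := by
    funext e
    have e1 : [y, d, z] ++ [u] = [y, d, z, u] := rfl
    rw [cy, e1, wk_cons2, wk_cons2, wk_cons2, wk_cons2, wk_single, Sym2.eq_swap (a := z) (b := u),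
      Sym2.eq_swap (a := d) (b := z), cr_comm hG s(u, y) e, cr_comm hG s(y, d) e,
      cr_comm hG s(z, d) e, cr_comm hG s(u, z) e]
    ring
  rw [hfun, cy, wk_snoc, getLastD_append_cons, List.getLastD_nil, wk_add, wk_add, wk_add] at E1
  have hm1 : wk (cr cross s(u, y)) (x :: (M ++ [w])) = 0 :=
    wk_zero _ _ fun e he => cr_zero (hp _ hy e (hM e he))
  have hm2 : wk (cr cross s(u, z)) (x :: (M ++ [w])) = 0 :=
    wk_zero _ _ fun e he => cr_zero (hp _ hz e (hM e he))
  rw [hm1, hm2] at E1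
  rw [cr_comm hG s(w, x) s(u, y), cr_comm hG s(w, x) s(u, z), cr_comm hG s(w, x) s(y, d),
    cr_comm hG s(w, x) s(z, d)]
  have t1 := two_zmod (cr cross s(u, y) s(w, x) + cr cross s(y, d) s(w, x) + cr cross s(z, d) s(w, x) +
    cr cross s(u, z) s(w, x))
  linear_combination E1 - t1

/-- the cycle made of two paths -/
theorem cy_two (g : Sym2 V → ZMod 2) (u w x y : V) (M N : List V) :
    cy g (u :: x :: (M ++ w :: (y :: N).reverse)) =
      g s(u, x) + wk g (x :: (M ++ [w])) + wk g (y :: (N ++ [w])) + g s(u, y) := by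
  have e2 : x :: (M ++ w :: (y :: N).reverse) ++ [u] =
      x :: (M ++ w :: (N.reverse ++ y :: [u])) := by
    rw [List.reverse_cons]
    simp
  have e3 : wk g (w :: (N.reverse ++ y :: [])) = wk g (y :: (N ++ [w])) := by
    rw [← wk_reverse g (y :: (N ++ [w]))]
    congr 1
    simp
  have e4 : wk g (w :: (N.reverse ++ y :: [u])) = wk g (y :: (N ++ [w])) + g s(u, y) := by
    rw [wk_append, wk_cons2, wk_single, ← e3, wk_append, wk_single, Sym2.eq_swap (a := y) (b := u)]
    ring
  rw [cy, e2, wk_cons2, wk_append, e4, wk_snoc g M x w]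
  ring

/-- THETA PARITY -/
theorem theta {cross : Sym2 V → Sym2 V → Prop} (hG : Geo cross) {F : Finset (Sym2 V)}
    (hp : Plane cross F) {u w x1 x2 x3 d : V} {M1 M2 M3 : List V}
    (hn : (u :: w :: d :: ((x1 :: M1) ++ ((x2 :: M2) ++ (x3 :: M3)))).Nodup)
    (h1 : ∀ e ∈ we (u :: x1 :: (M1 ++ [w])), e ∈ F) (h2 : ∀ e ∈ we (u :: x2 :: (M2 ++ [w])), e ∈ F)
    (h3 : ∀ e ∈ we (u :: x3 :: (M3 ++ [w])), e ∈ F) :
    cy (cr cross s(x2, d)) (u :: x1 :: (M1 ++ w :: (x3 :: M3).reverse)) +
      cy (cr cross s(x1, d)) (u :: x2 :: (M2 ++ w :: (x3 :: M3).reverse)) +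
      cy (cr cross s(x3, d)) (u :: x1 :: (M1 ++ w :: (x2 :: M2).reverse)) = 1 := by
  rw [cy_two, cy_two, cy_two]
  rw [we, List.forall_mem_cons] at h1 h2 h3
  have hn' := hn
  simp only [List.nodup_cons, List.nodup_append, List.mem_append, List.mem_cons, not_or,
    List.cons_append] at hn'
  obtain ⟨⟨huw, hud, hux1, huM1, hux2, huM2, hux3, huM3⟩, ⟨hwd, hwx1, hwM1, hwx2, hwM2, hwx3, hwM3⟩,
    ⟨hdx1, hdM1, hdx2, hdM2, hdx3, hdM3⟩, ⟨hx1M, q12, hx1M2, q13, hx1M3⟩, _,
    ⟨⟨hx2M, q23, hx2M3⟩, _, ⟨hx3M, _⟩, h23⟩, h1r⟩ := hn'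
  have E1 := sub_path hG (d := d) hp h1.2 h2.1 h3.1 (by
    intro a ha
    simp only [List.mem_cons, List.mem_append, List.not_mem_nil, or_false] at ha
    rcases ha with rfl | ha | rfl
    · exact ⟨Ne.symm hux1, q12, q13, Ne.symm hdx1⟩
    · refine ⟨?_, h1r a ha x2 (Or.inl rfl), h1r a ha x3 (Or.inr (Or.inr (Or.inl rfl))), ?_⟩
      · rintro rfl
        exact huM1 ha
      · rintro rfl
        exact hdM1 ha
    · exact ⟨Ne.symm huw, hwx2, hwx3, hwd⟩)
  have E2 := sub_path hG (d := d) hp h2.2 h1.1 h3.1 (by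
    intro a ha
    simp only [List.mem_cons, List.mem_append, List.not_mem_nil, or_false] at ha
    rcases ha with rfl | ha | rfl
    · exact ⟨Ne.symm hux2, Ne.symm q12, q23, Ne.symm hdx2⟩
    · refine ⟨?_, ?_, h23 a ha x3 (Or.inl rfl), ?_⟩
      · rintro rfl
        exact huM2 ha
      · rintro rfl
        exact hx1M2 ha
      · rintro rfl
        exact hdM2 ha
    · exact ⟨Ne.symm huw, hwx1, hwx3, hwd⟩)
  have E3 := sub_path hG (d := d) hp h3.2 h1.1 h2.1 (by
    intro a ha
    simp only [List.mem_cons, List.mem_append, List.not_mem_nil, or_false] at ha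
    rcases ha with rfl | ha | rfl
    · exact ⟨Ne.symm hux3, Ne.symm q13, Ne.symm q23, Ne.symm hdx3⟩
    · refine ⟨?_, ?_, ?_, ?_⟩
      · rintro rfl
        exact huM3 ha
      · rintro rfl
        exact hx1M3 ha
      · rintro rfl
        exact hx2M3 ha
      · rintro rfl
        exact hdM3 ha
    · exact ⟨Ne.symm huw, hwx1, hwx2, hwd⟩)
  have K := k33 hG (a := u) (b := w) (c := d) (x := x1) (y := x2) (z := x3) (by
    simp only [List.nodup_cons, List.mem_cons, List.not_mem_nil, or_false, not_or, List.nodup_nil,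
      and_true, not_false_eq_true]
    exact ⟨⟨huw, hud, hux1, hux2, hux3⟩, ⟨hwd, hwx1, hwx2, hwx3⟩, ⟨hdx1, hdx2, hdx3⟩, ⟨q12, q13⟩, q23⟩)
  rw [cr_comm hG s(w, x1) s(u, x2), cr_comm hG s(w, x1) s(u, x3), Sym2.eq_swap (a := x2) (b := d),
    Sym2.eq_swap (a := x3) (b := d)] at E1
  rw [cr_comm hG s(w, x2) s(u, x1), cr_comm hG s(w, x2) s(u, x3), Sym2.eq_swap (a := x1) (b := d),
    Sym2.eq_swap (a := x3) (b := d)] at E2
  rw [cr_comm hG s(w, x3) s(u, x1), cr_comm hG s(w, x3) s(u, x2), Sym2.eq_swap (a := x1) (b := d),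
    Sym2.eq_swap (a := x2) (b := d)] at E3
  rw [Sym2.eq_swap (a := x1) (b := d), Sym2.eq_swap (a := x2) (b := d), Sym2.eq_swap (a := x3) (b := d),
    cr_comm hG s(d, x1) s(u, x2), cr_comm hG s(d, x1) s(u, x3), cr_comm hG s(d, x2) s(u, x1),
    cr_comm hG s(d, x2) s(u, x3), cr_comm hG s(d, x3) s(u, x1), cr_comm hG s(d, x3) s(u, x2)]
  linear_combination E1 + E2 + E3 + K

theorem ce_two {F : Finset (Sym2 V)} {u w x y : V} {M N : List V}
    (h1 : ∀ e ∈ we (u :: x :: (M ++ [w])), e ∈ F) (h2 : ∀ e ∈ we (u :: y :: (N ++ [w])), e ∈ F) :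
    ∀ e ∈ ce (u :: x :: (M ++ w :: (y :: N).reverse)), e ∈ F := by
  rw [we_chain] at h1 h2
  rw [ce, we_chain]
  have e1 : u :: (x :: (M ++ w :: (y :: N).reverse) ++ [u]) =
      (u :: x :: M) ++ w :: ((y :: N).reverse ++ [u]) := by
    simp
  have e2 : w :: ((y :: N).reverse ++ [u]) = (u :: y :: (N ++ [w])).reverse := by
    simp
  rw [e1, List.isChain_split]
  refine ⟨?_, ?_⟩
  · have e3 : u :: x :: M ++ [w] = u :: x :: (M ++ [w]) := by simp
    rw [e3]
    exact h1
  · rw [e2, List.isChain_reverse]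
    refine h2.imp fun a b h => ?_
    change s(b, a) ∈ F
    rw [Sym2.eq_swap]
    exact h

/-- A plane set without a cycle with vertices on both sides contains no theta graph with three inner
vertices and a further vertex. -/
theorem no_theta {cross : Sym2 V → Sym2 V → Prop} (hG : Geo cross) {W : Finset V}
    {F : Finset (Sym2 V)} (hF : F ⊆ LW W) (hp : Plane cross F) (hC : Clean cross W F)
    {u w x1 x2 x3 d : V} {M1 M2 M3 : List V} (hd : d ∈ W)
    (hn : (u :: w :: d :: ((x1 :: M1) ++ ((x2 :: M2) ++ (x3 :: M3)))).Nodup)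
    (h1 : ∀ e ∈ we (u :: x1 :: (M1 ++ [w])), e ∈ F) (h2 : ∀ e ∈ we (u :: x2 :: (M2 ++ [w])), e ∈ F)
    (h3 : ∀ e ∈ we (u :: x3 :: (M3 ++ [w])), e ∈ F) : False := by
  have hT := theta hG hp hn h1 h2 h3
  have m1 : x1 ∈ W := (mem_LW.1 (hF (h1 s(u, x1) (by rw [we]; exact List.mem_cons_self)))).2.1
  have m2 : x2 ∈ W := (mem_LW.1 (hF (h2 s(u, x2) (by rw [we]; exact List.mem_cons_self)))).2.1
  have m3 : x3 ∈ W := (mem_LW.1 (hF (h3 s(u, x3) (by rw [we]; exact List.mem_cons_self)))).2.1
  simp only [List.nodup_cons, List.nodup_append, List.mem_append, List.mem_cons, not_or,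
    List.cons_append] at hn
  obtain ⟨⟨huw, hud, hux1, huM1, hux2, huM2, hux3, huM3⟩, ⟨hwd, hwx1, hwM1, hwx2, hwM2, hwx3, hwM3⟩,
    ⟨hdx1, hdM1, hdx2, hdM2, hdx3, hdM3⟩, ⟨hx1M, q12, hx1M2, q13, hx1M3⟩, n1,
    ⟨⟨hx2M, q23, hx2M3⟩, n2, ⟨hx3M, n3⟩, h23⟩, h1r⟩ := hn
  have c1 := hC _ (by
    simp only [List.nodup_cons, List.nodup_append, List.mem_append, List.mem_cons, not_or,
      List.mem_reverse, List.nodup_reverse, List.reverse_cons, List.not_mem_nil, or_false]
    grind) (ce_two h1 h3) x2 m2 d hd (by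
    simp only [List.mem_append, List.mem_cons, not_or, List.mem_reverse]
    grind) (by
    simp only [List.mem_append, List.mem_cons, not_or, List.mem_reverse]
    grind)
  have c2 := hC _ (by
    simp only [List.nodup_cons, List.nodup_append, List.mem_append, List.mem_cons, not_or,
      List.mem_reverse, List.nodup_reverse, List.reverse_cons, List.not_mem_nil, or_false]
    grind) (ce_two h2 h3) x1 m1 d hd (by
    simp only [List.mem_append, List.mem_cons, not_or, List.mem_reverse]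
    grind) (by
    simp only [List.mem_append, List.mem_cons, not_or, List.mem_reverse]
    grind)
  have c3 := hC _ (by
    simp only [List.nodup_cons, List.nodup_append, List.mem_append, List.mem_cons, not_or,
      List.mem_reverse, List.nodup_reverse, List.reverse_cons, List.not_mem_nil, or_false]
    grind) (ce_two h1 h2) x3 m3 d hd (by
    simp only [List.mem_append, List.mem_cons, not_or, List.mem_reverse]
    grind) (by
    simp only [List.mem_append, List.mem_cons, not_or, List.mem_reverse]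
    grind)
  rw [c1, c2, c3] at hT
  simp at hT

end H91LB
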